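import Pool.Agent.Work.MP_64ea0f_cs_helper48.PROD
import Pool.Agent.Work.MP_64ea0f_cs_helper48.GOOD
import Pool.Agent.Work.MP_64ea0f_cs_helper24.HAT
import Pool.Agent.Work.MP_64ea0f_cs_helper24.TRR
import Pool.Agent.Work.MP_64ea0f_cs_helper98.GSE
import Pool.Agent.Work.MP_64ea0f_cs_helper42.GSA
import Pool.Agent.Work.MP_64ea0f_cs_helper42.GSC
import Pool.Agent.Work.MP_64ea0f_cs_helper67.GSB
import Pool.Agent.Work.MP_64ea0f_cs_helper67.GSD
import Pool.Agent.Work.MP_64ea0f_cs_helper4.GDO
import Pool.Agent.Work.MP_64ea0f_cs_helper5.TRF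
import Pool.Agent.Work.MP_64ea0f_cs_helper94.SMF
import Pool.Agent.Work.MP_64ea0f_cs_helper23.SMITH

set_option autoImplicit false

/-! # Part D assembled: goodness, transfer, Smith theory, without hypotheses -/

namespace Pool.CS.D

theorem prod : Stmt_PROD := prod_thm
theorem hat : Stmt_HAT := hat_thm
theorem gdo : Stmt_GDO := gdo_thm
theorem gsa : Stmt_GSA := gsa_thm prod
theorem gsb : Stmt_GSB := gsb_thm hat
theorem gsc : Stmt_GSC := gsc_thm hat
theorem gsd : Stmt_GSD := gsd_thm prod
theorem gse : Stmt_GSE := H98.stmt_GSE gsa gsb gsc gsd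
/-- goodness of right-angled Coxeter groups -/
theorem good : Stmt_GOOD := good_thm gdo gse
theorem trr : Stmt_TRR := trr_thm hat
/-- transfer to true flags -/
theorem trf : Stmt_TRF := trf_thm prod good trr
theorem smf : Stmt_SMF := smf_thm
/-- Smith theory for towers -/
theorem smith : Stmt_SMITH := smith_thm smf

end Pool.CS.D

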