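import Pool.Agent.Work.MP_64ea0f_cs_helper54.AllD
import Pool.Agent.Work.MP_64ea0f_cs_helper53.SMT

set_option autoImplicit false

/-! # Part D assembled, second file: SMT without hypotheses -/

namespace Pool.CS.D

/-- Smith theory for actions on cubings -/
theorem smt : Stmt_SMT := smt_thm trf smith

end Pool.CS.D
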